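import Pool.Agent.Helper26.D5.Sheet
import Pool.Agent.Helper6.PL.C
import Pool.Agent.Helper26.D4.MB

/-!
MP_fcb106_co, version 5, rows B5 and C5: the cases where `G₁` is as large as `G`.
-/

set_option autoImplicit false

open Finset

namespace Pool.Agent.Helper26.D5

open Pool.Agent.Helper33.DP Pool.Agent.Helper63.D4 Pool.Agent.Helper6.PL Pool.Agent.Helper26.D4

theorem card_pos_core {w : ℕ} (hw : 1 ≤ w) {G : Gr w} (h : IsCore G) : 1 ≤ G.card := by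
  obtain ⟨σ, hσ⟩ := h.ex
  exact Finset.card_pos.2 ⟨_, hσ ⟨0, hw⟩⟩

theorem Bdd_le {w : ℕ} {G : Gr w} {m : Fin w → Fin w → ℝ} {β β' : ℝ} (h : Bdd G m β)
    (hβ : β ≤ β') : Bdd G m β' :=
  ⟨h.pos, fun σ hσ => (h.le σ hσ).trans hβ⟩

/-- the signed deficits are not too negative -/
theorem eF_nonneg (hPS5 : ST_PS5) {w : ℕ} {G : Gr w} {F : Fin w → Fin w → ℝ} (hw : 1 ≤ w)
    (hG : IsCore G) (hF : Psi F ≤ lamG G) (a b : Fin w) : 0 ≤ e0 w + F a b := by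
  have := (abs_le.1 (hPS5 w G F hw hG hF a b)).1
  linarith

/-- the numbers of a block -/
theorem blk_num (hPS5 : ST_PS5) (hGB5 : ST_GB5) {w : ℕ} {G G₁ G₂ : Gr w}
    {μ : Fin w → Fin w → ℕ} {R C F : Fin w → Fin w → ℝ} {T E : Fin w → Finset (Fin w)}
    (hw : 1 ≤ w) (hG : IsCore G) (hgood : Good5 G μ) (hblk : Blk G G₁ G₂ T E)
    (hR : ∀ a, Cl (R a)) (hC : ∀ b, Cl (fun a => C a b)) (hF : Psi F ≤ lamG G) (b : Fin w) :
    0 < ∑ a ∈ E b, (μ a b : ℝ) ∧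
    0 ≤ (∑ a ∈ E b, (R a b + C a b + (e0 w + F a b))) / ((T b).card : ℝ) ∧
    ∑ a ∈ E b, ((μ a b : ℝ) + R a b + C a b + (e0 w + F a b)) = ∑ a ∈ E b, (μ a b : ℝ) +
      (T b).card * ((∑ a ∈ E b, (R a b + C a b + (e0 w + F a b))) / ((T b).card : ℝ)) := by
  have hTpos : (0 : ℝ) < (T b).card := by exact_mod_cast hblk.pos b
  have hEpos : 0 < (E b).card := by rw [hblk.card b]; exact hblk.pos b
  refine ⟨?_, ?_, ?_⟩
  · refine Finset.sum_pos (fun a ha => ?_) (Finset.card_pos.1 hEpos)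
    have h1 := hGB5 w G μ hw hG hgood a b (hblk.left a b ha)
    have h2 : (1 : ℝ) ≤ μ a b := by exact_mod_cast h1
    linarith
  · exact div_nonneg (Finset.sum_nonneg fun a _ =>
      add_nonneg (add_nonneg ((hR a).1 b) ((hC b).1 a)) (eF_nonneg hPS5 hw hG hF a b)) hTpos.le
  · rw [mul_div_cancel₀ _ hTpos.ne', ← Finset.sum_add_distrib]
    exact Finset.sum_congr rfl fun a _ => by ring

/-- the end of both cases -/
theorem fin_step (hPS5 : ST_PS5) (hWG : ST_WG) (hLAM : ST_LAM) (hMB : ST_MB5) {w : ℕ}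
    {G G₁ G₂ : Gr w} {μ : Fin w → Fin w → ℕ}
    {R C F P : Fin w → Fin w → ℝ} {T E : Fin w → Finset (Fin w)} {β' : ℝ} (hw : 1 ≤ w)
    (hG : IsCore G) (hG₁ : IsCore G₁)
    (hG₂ : IsCore G₂) (hcomp : comp G₁ G₂ = G)
    (hst : ∀ a x b, (a, b) ∈ G → (x, b) ∈ G₂ → (a, x) ∈ G₁) (hblk : Blk G G₁ G₂ T E)
    (hμ0 : ∀ a b, (a, b) ∉ G → μ a b = 0) (hR : ∀ a, Cl (R a)) (hC : ∀ b, Cl (fun a => C a b))
    (hF : Psi F ≤ lamG G)
    (hB : Bdd G (fun a b => (μ a b : ℝ) + R a b + C a b + (e0 w + F a b)) (1 / g5 w G.card))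
    (hc₁ : G₁.card = G.card) (hc₂ : G₂.card ≤ G.card) (hP : DS G₂ P)
    (hPB : Bdd G₂ (fun x b => P x b * (∑ a ∈ E b, (μ a b : ℝ)) +
      (∑ a ∈ E b, (R a b + C a b + (e0 w + F a b))) / ((T b).card : ℝ)) β')
    (hβ' : β' ≤ 1 / g5 w G₂.card) : StepC5 G₁ G₂ μ := by
  obtain ⟨z, hz, ⟨R₁, C₁, F₁, hR₁, hC₁, hF₁, hB₁⟩, R₂, C₂, F₂, hR₂, hC₂, hF₂, hle⟩ :=
    hMB w G G₁ G₂ μ R C F P T E _ (e0 w) hG₁ hG₂ hcomp hst hblk hμ0 hR hC
      (fun a b => eF_nonneg hPS5 hw hG hF a b) hB hP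
  obtain ⟨w1, w2⟩ := hWG w G G₁ G₂ hG hG₁ hG₂ (by rw [hcomp])
  have l1 := (hLAM w G G₁ hw hc₁.le w1).2.1
  have l2 := (hLAM w G G₂ hw hc₂ w2).2.1
  refine ⟨z, hz, ⟨fun a x h => ?_, R₁, C₁, F₁, hR₁, hC₁, hF₁.trans (hF.trans l1), by
    rw [hc₁]; exact hB₁⟩,
    fun x b h => ?_, R₂, C₂, F₂, hR₂, hC₂, hF₂.trans (hF.trans l2),
      Bdd_le (Bdd_mono hPB hle) hβ'⟩
  · refine Finset.sum_eq_zero fun b _ => ?_
    by_contra hne
    exact h (hz.supp a x b hne).1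
  · refine Finset.sum_eq_zero fun a _ => ?_
    by_contra hne
    exact h (hz.supp a x b hne).2

theorem e0_pos {w : ℕ} (hw : 1 ≤ w) : 0 < e0 w := by
  have h1 : (1 : ℝ) ≤ w := by exact_mod_cast hw
  have h2 : (0 : ℝ) < LL w := by
    unfold LL
    positivity
  unfold e0
  positivity

theorem B5 (hSTR : ST_STR) (hBL : ST_BL) (hPEX4 : ST_PEX4) (hPS5 : ST_PS5) (hWG : ST_WG)
    (hLAM : ST_LAM) (hMB : ST_MB5) (hGB5 : ST_GB5) : ST_B5 := by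
  classical
  intro w G G₁ G₂ μ hw hG hG₁ hG₂ hcomp hgood hc₁ hc₂
  obtain ⟨heq, hst⟩ := (hSTR w G G₁ G₂ hG₁ hG₂ hcomp.subset).1.2 hc₁
  obtain ⟨T, E, hblk, hBLB⟩ := hBL w G G₁ G₂ hG₁ hG₂ heq hst
  have hgood' := hgood
  obtain ⟨hμ0, R, C, F, hR, hC, hF, hB⟩ := hgood'
  have hnum := blk_num hPS5 hGB5 hw hG hgood hblk hR hC hF
  have h1 := hBLB _ _ hB
  set s : Fin w → ℝ := fun b => ∑ a ∈ E b, (μ a b : ℝ) with hs
  set e : Fin w → ℝ := fun b =>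
    (∑ a ∈ E b, (R a b + C a b + (e0 w + F a b))) / ((T b).card : ℝ) with he
  have h2 : ∑ b, ((T b).card : ℝ) / (s b + (T b).card * e b) ≤ 1 / g5 w G.card := by
    refine le_trans (le_of_eq ?_) h1
    refine Finset.sum_congr rfl fun b _ => ?_
    rw [(hnum b).2.2]
  have hwR : (1 : ℝ) ≤ w := by exact_mod_cast hw
  have hw0 : (0 : ℝ) < w := by linarith
  have he0 := e0_pos hw
  have hm2 : (1 : ℝ) ≤ G₂.card := by exact_mod_cast card_pos_core hw hG₂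
  have hm : (G₂.card : ℝ) + 1 ≤ G.card := by exact_mod_cast hc₂
  have hm' : (G₂.card : ℝ) / w + 1 / w ≤ G.card / w := by
    rw [← add_div]
    exact div_le_div_of_nonneg_right hm hw0.le
  have hm2' : 0 ≤ (G₂.card : ℝ) / w := by positivity
  have hw1 : 0 < 1 / (w : ℝ) := by positivity
  have hg2 : g5 w G₂.card ≤ g5 w G.card - 1 / w := by
    unfold g5
    linarith
  have hg1 : 0 < g5 w G₂.card := by
    unfold g5
    linarith
  have hlt : 1 / g5 w G.card < 1 / (g5 w G.card - 1 / w) :=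
    one_div_lt_one_div_of_lt (by linarith) (by linarith)
  have hT : ∀ b, (univ.filter (fun x => (x, b) ∈ G₂)).card ≤ (T b).card := by
    intro b
    refine Finset.card_le_card fun x hx => ?_
    exact hblk.mem x b (Finset.mem_filter.1 hx).2
  obtain ⟨P, hP, hPB⟩ := hPEX4 w G₂ s e (fun b => (T b).card) _ _ hw hG₂
    (fun b => (hnum b).1) (fun b => (hnum b).2.1) (by convert hT) h2 hlt
  exact fin_step hPS5 hWG hLAM hMB hw hG hG₁ hG₂ heq hst hblk hμ0 hR hC hF hB hc₁ hc₂.le hP hPB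
    (one_div_le_one_div_of_le hg1 hg2)

theorem C5 (hSTR : ST_STR) (hBL : ST_BL) (hPS5 : ST_PS5) (hWG : ST_WG) (hLAM : ST_LAM)
    (hMB : ST_MB5) (hGB5 : ST_GB5) : ST_C5 := by
  classical
  intro w G G₁ G₂ μ hw hG hG₁ hG₂ hcomp hgood hc₁ hc₂
  obtain ⟨⟨-, s1⟩, ⟨-, s2⟩⟩ := hSTR w G G₁ G₂ hG₁ hG₂ hcomp.subset
  obtain ⟨heq, hst⟩ := s1 hc₁
  obtain ⟨-, hst2⟩ := s2 hc₂
  have hCC : CC G G₁ G₂ := ⟨hG₁, hG₂, hcomp.subset, hst, hst2, hc₁, hc₂⟩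
  obtain ⟨T, E, hblk, hBLB⟩ := hBL w G G₁ G₂ hG₁ hG₂ heq hst
  have hgood' := hgood
  obtain ⟨hμ0, R, C, F, hR, hC, hF, hB⟩ := hgood'
  have hnum := blk_num hPS5 hGB5 hw hG hgood hblk hR hC hF
  have h1 := hBLB _ _ hB
  set s : Fin w → ℝ := fun b => ∑ a ∈ E b, (μ a b : ℝ) with hs
  set e : Fin w → ℝ := fun b =>
    (∑ a ∈ E b, (R a b + C a b + (e0 w + F a b))) / ((T b).card : ℝ) with he
  have h2 : ∑ b, ((T b).card : ℝ) / (s b + (T b).card * e b) ≤ 1 / g5 w G.card := by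
    refine le_trans (le_of_eq ?_) h1
    refine Finset.sum_congr rfl fun b _ => ?_
    rw [(hnum b).2.2]
  have hTn : ∀ b, nC G₂ b = T b := by
    intro b
    ext x
    rw [mem_nC]
    refine ⟨fun h => hblk.mem x b h, fun h => ?_⟩
    have hEpos : 0 < (E b).card := by rw [hblk.card b]; exact hblk.pos b
    obtain ⟨a, ha⟩ := Finset.card_pos.1 hEpos
    exact hst2 a x b (hblk.left a b ha) (hblk.right a x b (hblk.left a b ha) h)
  have hTpos : ∀ b, (0 : ℝ) < (T b).card := fun b => by exact_mod_cast hblk.pos b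
  have hPv : ∀ x b, (x, b) ∈ G₂ → PP G₂ x b = ((T b).card : ℝ)⁻¹ := by
    intro x b h
    unfold PP
    rw [if_pos h, hTn b]
  refine fin_step hPS5 hWG hLAM hMB hw hG hG₁ hG₂ heq hst hblk hμ0 hR hC hF hB hc₁ hc₂.le
    hCC.dsP (β' := 1 / g5 w G.card) ⟨fun x b h => ?_, fun σ hσ => ?_⟩ (by rw [hc₂])
  · have h3 := (hnum b).1
    have h4 := (hnum b).2.1
    rw [hPv x b h]
    have h5 : 0 < ((T b).card : ℝ)⁻¹ := inv_pos.2 (hTpos b)
    have := mul_pos h5 h3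
    linarith
  · refine le_trans (le_of_eq ?_) h2
    rw [← Equiv.sum_comp σ (fun b => ((T b).card : ℝ) / (s b + (T b).card * e b))]
    refine Finset.sum_congr rfl fun x _ => ?_
    rw [hPv x (σ x) (hσ x)]
    have h3 : ((T (σ x)).card : ℝ)⁻¹ * (∑ a ∈ E (σ x), (μ a (σ x) : ℝ)) +
        (∑ a ∈ E (σ x), (R a (σ x) + C a (σ x) + (e0 w + F a (σ x)))) /
          ((T (σ x)).card : ℝ) =
        (s (σ x) + (T (σ x)).card * e (σ x)) / (T (σ x)).card := by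
      have h4 := (hTpos (σ x)).ne'
      simp only [hs, he]
      field_simp
    rw [h3, inv_div]

end Pool.Agent.Helper26.D5
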