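import Pool.Agent.Helper63.D4.Sheet

/-!
# Version 5 (MP_fcb106_co): a third kind of deficits with an exponential potential, exponent 5

In version 4 every step with two smaller graphs costs `4 + 1` on both sides. Now the rounding
errors of these steps are collected in signed deficits `F`, controlled by the exponential potential
`Psi F`. The rounding is chosen such that one child pays only a factor `1 + O(1 / w ^ 2)`. The other
child pays a factor `exp (1 / w)`; it is the child in which the measure `WW` drops by a constant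
(`LW`). So the total size of `F` is `O (w log w)`.
-/

set_option autoImplicit false

namespace Pool.Agent.Helper26.D5

open Finset Pool.Agent.Helper33.DP Pool.Agent.Helper63.D4

/-! ### the measure of a graph -/

/-- The degree of a row. -/
def rdeg {w : ℕ} (G : Gr w) (a : Fin w) : ℕ := (univ.filter (fun x => (a, x) ∈ G)).card

/-- The degree of a column. -/
def cdeg {w : ℕ} (G : Gr w) (b : Fin w) : ℕ := (univ.filter (fun x => (x, b) ∈ G)).card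

/-- The sum of the logarithms of the degrees. -/
noncomputable def hs {w : ℕ} (G : Gr w) : ℝ :=
  ∑ a, Real.log (rdeg G a : ℝ) + ∑ b, Real.log (cdeg G b : ℝ)

/-- All-complete graphs: every component is complete bipartite. -/
def AC {w : ℕ} (G : Gr w) : Prop :=
  ∀ a a' b b', (a, b') ∈ G → (a', b') ∈ G → (a', b) ∈ G → (a, b) ∈ G

/-- Half of the sum of the inverse degrees (the number of components of an all-complete core). -/
noncomputable def nb {w : ℕ} (G : Gr w) : ℝ :=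
  (∑ a, (rdeg G a : ℝ)⁻¹ + ∑ b, (cdeg G b : ℝ)⁻¹) / 2

/-- The smallest number of components of an all-complete core in `G`. -/
noncomputable def vv {w : ℕ} (G : Gr w) : ℝ :=
  sInf {t : ℝ | ∃ G' : Gr w, IsCore G' ∧ G' ⊆ G ∧ AC G' ∧ t = nb G'}

/-- The measure. -/
noncomputable def WW {w : ℕ} (G : Gr w) : ℝ := hs G + w - vv G

/-! ### the states -/

/-- The rounded logarithm. -/
def LL (w : ℕ) : ℕ := Nat.log 2 w + 1

/-- The shift of the signed deficits. -/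
noncomputable def e0 (w : ℕ) : ℝ := 492 * w * (LL w : ℝ)

/-- The scale: the potential is at most `1 / g5 w m`, for a graph with `m` edges. -/
noncomputable def g5 (w m : ℕ) : ℝ := 8 * w + 2 * e0 w + m / w

/-- The exponential potential of the signed deficits. -/
noncomputable def Psi {w : ℕ} (F : Fin w → Fin w → ℝ) : ℝ :=
  ∑ a, ∑ b, Real.cosh (F a b / (4 * w))

/-- The bound of the exponential potential. -/
noncomputable def lamG {w : ℕ} (G : Gr w) : ℝ :=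
  w ^ 2 * Real.exp (11 / 8 * (1 - G.card / w ^ 2) + 50 / w * (WW (univ : Gr w) - WW G))

/-- The good states of a gap. -/
def Good5 {w : ℕ} (G : Gr w) (μ : Fin w → Fin w → ℕ) : Prop :=
  (∀ a b, (a, b) ∉ G → μ a b = 0) ∧
  ∃ R C F : Fin w → Fin w → ℝ, (∀ a, Cl (R a)) ∧ (∀ b, Cl (fun a => C a b)) ∧ Psi F ≤ lamG G ∧
    Bdd G (fun a b => (μ a b : ℝ) + R a b + C a b + (e0 w + F a b)) (1 / g5 w G.card)

/-! ### the rows: the measure -/

/-- CK, the composition of two cores is a core. -/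
def ST_CK : Prop :=
  ∀ (w : ℕ) (G₁ G₂ : Gr w), IsCore G₁ → IsCore G₂ → IsCore (comp G₁ G₂)

/-- WM, monotonicity. -/
def ST_WM : Prop :=
  ∀ (w : ℕ) (G G' : Gr w), IsCore G → IsCore G' → G' ⊆ G → WW G' ≤ WW G

/-- WB, the bounds. -/
def ST_WB : Prop :=
  ∀ (w : ℕ), 1 ≤ w → (∀ G : Gr w, IsCore G → 0 ≤ WW G) ∧
    WW (univ : Gr w) ≤ 2 * w * Real.log w + w

/-- WT, transposition. -/
def ST_WT : Prop := ∀ (w : ℕ) (G : Gr w), WW (tr G) = WW G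

/-- WG, the children. -/
def ST_WG : Prop :=
  ∀ (w : ℕ) (G G₁ G₂ : Gr w), IsCore G → IsCore G₁ → IsCore G₂ → comp G₁ G₂ ⊆ G →
    WW G₁ ≤ WW G ∧ WW G₂ ≤ WW G

/-- W1, a proper subgraph of an all-complete graph. -/
def ST_W1 : Prop :=
  ∀ (w : ℕ) (G G' : Gr w), IsCore G → AC G → IsCore G' → G' ⊆ G → G' ≠ G →
    WW G' ≤ WW G - 1 / 2

/-- WD, a subgraph in which one degree is smaller by a factor `49 / 50`. -/
def ST_WD : Prop :=
  ∀ (w : ℕ) (G G' : Gr w), IsCore G → IsCore G' → G' ⊆ G →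
    ((∃ a, 50 * rdeg G' a < 49 * rdeg G a) ∨ ∃ b, 50 * cdeg G' b < 49 * cdeg G b) →
    WW G' ≤ WW G - 1 / 50

/-- LX, Lemma X of the blueprint. -/
def ST_LX : Prop :=
  ∀ (w : ℕ) (G G₁ G₂ : Gr w), IsCore G₁ → IsCore G₂ → comp G₁ G₂ = G → ¬ AC G →
    (∃ x b, (x, b) ∈ G₂ ∧ 50 * cdeg G₁ x < 49 * cdeg G b) ∨
    (∃ a x, (a, x) ∈ G₁ ∧ 50 * rdeg G₂ x < 49 * rdeg G a) ∨
    (∃ a, 50 * rdeg G₁ a < 49 * rdeg G a) ∨ ∃ b, 50 * cdeg G₂ b < 49 * cdeg G b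

/-- LW, Lemma W: one of two smaller children has a smaller measure. -/
def ST_LW : Prop :=
  ∀ (w : ℕ) (G G₁ G₂ : Gr w), IsCore G → IsCore G₁ → IsCore G₂ → comp G₁ G₂ = G →
    G₁.card < G.card → G₂.card < G.card → WW G₁ ≤ WW G - 1 / 50 ∨ WW G₂ ≤ WW G - 1 / 50

/-! ### the rows: the exponential potential -/

/-- PS1, averaging by doubly stochastic matrices. -/
def ST_PS1 : Prop :=
  ∀ (w : ℕ) (P F : Fin w → Fin w → ℝ), (∀ x b, 0 ≤ P x b) → (∀ x, ∑ b, P x b = 1) →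
    (∀ b, ∑ x, P x b = 1) → Psi (fun a x => ∑ b, P x b * F a b) ≤ Psi F ∧
      Psi (fun x b => ∑ a, P a x * F a b) ≤ Psi F

/-- PS2, averaging over the blocks. -/
def ST_PS2 : Prop :=
  ∀ (w : ℕ) (T E : Fin w → Finset (Fin w)) (F : Fin w → Fin w → ℝ),
    (∀ b, (E b).card = (T b).card) → (∀ b, 1 ≤ (T b).card) →
    Psi (fun x b => if x ∈ T b then (∑ a ∈ E b, F a b) / (T b).card else 0) ≤ Psi F

/-- PS3, convex combinations. -/
def ST_PS3 : Prop :=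
  ∀ (w : ℕ) (F F' : Fin w → Fin w → ℝ) (s t Λ : ℝ), 0 ≤ s → 0 ≤ t → s + t = 1 → Psi F ≤ Λ →
    Psi F' ≤ Λ → Psi (fun a b => s * F a b + t * F' a b) ≤ Λ

/-- PS4, errors: in general, and when the gradient does not increase. -/
def ST_PS4 : Prop :=
  ∀ (w : ℕ) (F d : Fin w → Fin w → ℝ), 1 ≤ w → (∀ a b, |d a b| ≤ 4) →
    Psi (fun a b => F a b + d a b) ≤ Real.exp (1 / w) * Psi F ∧
    (∑ a, ∑ b, Real.sinh (F a b / (4 * w)) * d a b ≤ 0 →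
      Psi (fun a b => F a b + d a b) ≤ Real.exp (11 / 8 / w ^ 2) * Psi F)

/-- PS5, the size of the signed deficits. -/
def ST_PS5 : Prop :=
  ∀ (w : ℕ) (G : Gr w) (F : Fin w → Fin w → ℝ), 1 ≤ w → IsCore G → Psi F ≤ lamG G →
    ∀ a b, |F a b| ≤ e0 w

/-- LAM, the bound along the steps. -/
def ST_LAM : Prop :=
  ∀ (w : ℕ) (G G' : Gr w), 1 ≤ w → G'.card ≤ G.card → WW G' ≤ WW G →
    0 ≤ lamG G ∧ lamG G ≤ lamG G' ∧
    (G'.card < G.card → Real.exp (11 / 8 / w ^ 2) * lamG G ≤ lamG G') ∧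
    (WW G' ≤ WW G - 1 / 50 → Real.exp (1 / w) * lamG G ≤ lamG G')

/-! ### the rows: rounding and the fractional part -/

/-- BFS, rounding with bounded errors on both sides (Beck and Fiala) and a linear functional. -/
def ST_BFS : Prop :=
  ∀ (w : ℕ) (z : Fin w → Fin w → Fin w → ℝ) (n : Fin w → Fin w → ℕ)
    (c : Fin w → Fin w → Fin w → ℝ), (∀ a x b, 0 ≤ z a x b) → (∀ a b, ∑ x, z a x b = n a b) →
    ∃ z' : Fin w → Fin w → Fin w → ℕ, (∀ a b, ∑ x, z' a x b = n a b) ∧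
      (∀ a x b, z a x b = 0 → z' a x b = 0) ∧
      (∀ a x, |∑ b, (z' a x b : ℝ) - ∑ b, z a x b| ≤ 4) ∧
      (∀ x b, |∑ a, (z' a x b : ℝ) - ∑ a, z a x b| ≤ 4) ∧
      ∑ a, ∑ x, ∑ b, c a x b * (z a x b - (z' a x b : ℝ)) ≤ 0

/-- T1F, the fractional closure theorem with three kinds of deficits. -/
def ST_T1F : Prop :=
  ∀ (w : ℕ) (G G₁ G₂ : Gr w) (μ R C F : Fin w → Fin w → ℝ) (β β' e Λ : ℝ), 1 ≤ w → IsCore G₁ →
    IsCore G₂ → comp G₁ G₂ ⊆ G → (∀ a b, (a, b) ∈ G → 0 < μ a b) → (∀ a, Cl (R a)) →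
    (∀ b, Cl (fun a => C a b)) → Psi F ≤ Λ →
    (∀ F' : Fin w → Fin w → ℝ, Psi F' ≤ Λ → ∀ a b, |F' a b| ≤ e) →
    Bdd G (fun a b => μ a b + R a b + C a b + (e + F a b)) β → β < β' →
    ∃ (z : Fin w → Fin w → Fin w → ℝ) (R₁ C₁ F₁ R₂ C₂ F₂ : Fin w → Fin w → ℝ),
      (∀ a x b, 0 ≤ z a x b) ∧
      (∀ a x b, ¬ ((a, x) ∈ G₁ ∧ (x, b) ∈ G₂) → z a x b = 0) ∧
      (∀ a b, (a, b) ∈ comp G₁ G₂ → ∑ x, z a x b = μ a b) ∧
      (∀ a, Cl (R₁ a)) ∧ (∀ x, Cl (fun a => C₁ a x)) ∧ Psi F₁ ≤ Λ ∧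
      (∀ x, Cl (R₂ x)) ∧ (∀ b, Cl (fun x => C₂ x b)) ∧ Psi F₂ ≤ Λ ∧
      Bdd G₁ (fun a x => ∑ b, z a x b + R₁ a x + C₁ a x + (e + F₁ a x)) β' ∧
      Bdd G₂ (fun x b => ∑ a, z a x b + R₂ x b + C₂ x b + (e + F₂ x b)) β'

/-- MB5, the main step when `G₁` is as large as `G`. -/
def ST_MB5 : Prop :=
  ∀ (w : ℕ) (G G₁ G₂ : Gr w) (μ : Fin w → Fin w → ℕ) (R C F P : Fin w → Fin w → ℝ)
    (T E : Fin w → Finset (Fin w)) (β e : ℝ), IsCore G₁ → IsCore G₂ → comp G₁ G₂ = G →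
    (∀ a x b, (a, b) ∈ G → (x, b) ∈ G₂ → (a, x) ∈ G₁) → Blk G G₁ G₂ T E →
    (∀ a b, (a, b) ∉ G → μ a b = 0) → (∀ a, Cl (R a)) → (∀ b, Cl (fun a => C a b)) →
    (∀ a b, 0 ≤ e + F a b) →
    Bdd G (fun a b => (μ a b : ℝ) + R a b + C a b + (e + F a b)) β → DS G₂ P →
    ∃ z, Route G₁ G₂ μ z ∧
      (∃ R₁ C₁ F₁ : Fin w → Fin w → ℝ, (∀ a, Cl (R₁ a)) ∧ (∀ x, Cl (fun a => C₁ a x)) ∧
        Psi F₁ ≤ Psi F ∧
        Bdd G₁ (fun a x => ((∑ b, z a x b : ℕ) : ℝ) + R₁ a x + C₁ a x + (e + F₁ a x)) β) ∧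
      ∃ R₂ C₂ F₂ : Fin w → Fin w → ℝ, (∀ x, Cl (R₂ x)) ∧ (∀ b, Cl (fun x => C₂ x b)) ∧
        Psi F₂ ≤ Psi F ∧
        ∀ x b, (x, b) ∈ G₂ →
          P x b * (∑ a ∈ E b, (μ a b : ℝ)) +
              (∑ a ∈ E b, (R a b + C a b + (e + F a b))) / (T b).card ≤
            ((∑ a, z a x b : ℕ) : ℝ) + R₂ x b + C₂ x b + (e + F₂ x b)

/-! ### the rows: the cases -/

/-- GB5, what a good state gives. -/
def ST_GB5 : Prop :=
  ∀ (w : ℕ) (G : Gr w) (μ : Fin w → Fin w → ℕ), 1 ≤ w → IsCore G → Good5 G μ →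
    ∀ a b, (a, b) ∈ G → 1 ≤ μ a b

/-- RES, the restriction to a smaller core. -/
def ST_RES : Prop :=
  ∀ (w : ℕ) (G G' : Gr w) (μ : Fin w → Fin w → ℕ), 1 ≤ w → IsCore G → IsCore G' → G' ⊆ G →
    Good5 G μ → Good5 G' (fun a b => if (a, b) ∈ G' then μ a b else 0)

/-- The conclusion of a step. -/
def StepC5 {w : ℕ} (G₁ G₂ : Gr w) (μ : Fin w → Fin w → ℕ) : Prop :=
  ∃ z, Route G₁ G₂ μ z ∧ Good5 G₁ (fun a x => ∑ b, z a x b) ∧ Good5 G₂ (fun x b => ∑ a, z a x b)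

/-- Case A. -/
def ST_A5 : Prop :=
  ∀ (w : ℕ) (G G₁ G₂ : Gr w) (μ : Fin w → Fin w → ℕ), 1 ≤ w → IsCore G → IsCore G₁ → IsCore G₂ →
    comp G₁ G₂ = G → Good5 G μ → G₁.card < G.card → G₂.card < G.card → StepC5 G₁ G₂ μ

/-- Case B. -/
def ST_B5 : Prop :=
  ∀ (w : ℕ) (G G₁ G₂ : Gr w) (μ : Fin w → Fin w → ℕ), 1 ≤ w → IsCore G → IsCore G₁ → IsCore G₂ →
    comp G₁ G₂ = G → Good5 G μ → G₁.card = G.card → G₂.card < G.card → StepC5 G₁ G₂ μ

/-- Case B transposed. -/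
def ST_BT5 : Prop :=
  ∀ (w : ℕ) (G G₁ G₂ : Gr w) (μ : Fin w → Fin w → ℕ), 1 ≤ w → IsCore G → IsCore G₁ → IsCore G₂ →
    comp G₁ G₂ = G → Good5 G μ → G₁.card < G.card → G₂.card = G.card → StepC5 G₁ G₂ μ

/-- Case C. -/
def ST_C5 : Prop :=
  ∀ (w : ℕ) (G G₁ G₂ : Gr w) (μ : Fin w → Fin w → ℕ), 1 ≤ w → IsCore G → IsCore G₁ → IsCore G₂ →
    comp G₁ G₂ = G → Good5 G μ → G₁.card = G.card → G₂.card = G.card → StepC5 G₁ G₂ μ

/-- START5, the complete graph. -/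
def ST_START5 : Prop :=
  ∀ w : ℕ, 1 ≤ w → Good5 (univ : Gr w) (fun _ _ => 993 * w ^ 2 * LL w)

/-- S5, the strategy theorem. -/
def ST_S5 : Prop := ∀ w : ℕ, 1 ≤ w → ∃ Good, Strat w (993 * w ^ 4 * LL w) Good

/-- The final theorem. -/
def ST_FINAL5 : Prop :=
  ∀ w : ℕ, 1 ≤ w → Pool.Agent.Helper3.DW.Suffices w ((199 * w + 828) * w ^ 4 * LL w)

end Pool.Agent.Helper26.D5
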