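import Pool.Agent.Helper26.D5.Sheet

/-!
MP_fcb106_co, version 5, rows CK, WG and LW: relabelling, the children.
-/

set_option autoImplicit false

open Finset

namespace Pool.Agent.Helper26.D5

open Pool.Agent.Helper33.DP Pool.Agent.Helper63.D4

theorem mem_comp {w : ℕ} {G₁ G₂ : Gr w} {a b : Fin w} :
    (a, b) ∈ comp G₁ G₂ ↔ ∃ x, (a, x) ∈ G₁ ∧ (x, b) ∈ G₂ := by
  unfold comp
  simp

/-- **CK** -/
theorem CK : ST_CK := by
  intro w G₁ G₂ h1 h2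
  refine ⟨?_, fun a b hab => ?_⟩
  · obtain ⟨σ, hσ⟩ := h1.ex
    obtain ⟨τ, hτ⟩ := h2.ex
    exact ⟨σ.trans τ, fun i => mem_comp.2 ⟨σ i, hσ i, hτ (σ i)⟩⟩
  · obtain ⟨x, hx1, hx2⟩ := mem_comp.1 hab
    obtain ⟨σ, hσ, e1⟩ := h1.edge a x hx1
    obtain ⟨τ, hτ, e2⟩ := h2.edge x b hx2
    refine ⟨σ.trans τ, fun i => mem_comp.2 ⟨σ i, hσ i, hτ (σ i)⟩, ?_⟩
    rw [Equiv.trans_apply, e1, e2]

/-- The relabelled graph. -/
def rl {w : ℕ} (σ τ : Equiv.Perm (Fin w)) (G : Gr w) : Gr w :=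
  univ.filter (fun e => (σ.symm e.1, τ.symm e.2) ∈ G)

theorem mem_rl {w : ℕ} {σ τ : Equiv.Perm (Fin w)} {G : Gr w} {a b : Fin w} :
    (a, b) ∈ rl σ τ G ↔ (σ.symm a, τ.symm b) ∈ G := by
  unfold rl
  simp

theorem rl_symm {w : ℕ} (σ τ : Equiv.Perm (Fin w)) (G : Gr w) :
    rl σ.symm τ.symm (rl σ τ G) = G := by
  ext ⟨a, b⟩
  rw [mem_rl, mem_rl]
  simp

theorem rl_mono {w : ℕ} (σ τ : Equiv.Perm (Fin w)) {G G' : Gr w} (h : G ⊆ G') :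
    rl σ τ G ⊆ rl σ τ G' := by
  rintro ⟨a, b⟩ hab
  rw [mem_rl] at hab ⊢
  exact h hab

theorem rdeg_rl {w : ℕ} (σ τ : Equiv.Perm (Fin w)) (G : Gr w) (a : Fin w) :
    rdeg (rl σ τ G) a = rdeg G (σ.symm a) := by
  unfold rdeg
  refine Finset.card_bij (fun x _ => τ.symm x) (fun x hx => ?_)
    (fun x _ y _ h => τ.symm.injective h) fun y hy => ?_
  · simp only [mem_filter, mem_univ, true_and, mem_rl] at hx ⊢
    exact hx
  · refine ⟨τ y, ?_, by simp⟩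
    simp only [mem_filter, mem_univ, true_and, mem_rl, Equiv.symm_apply_apply] at hy ⊢
    exact hy

theorem cdeg_rl {w : ℕ} (σ τ : Equiv.Perm (Fin w)) (G : Gr w) (b : Fin w) :
    cdeg (rl σ τ G) b = cdeg G (τ.symm b) := by
  unfold cdeg
  refine Finset.card_bij (fun x _ => σ.symm x) (fun x hx => ?_)
    (fun x _ y _ h => σ.symm.injective h) fun y hy => ?_
  · simp only [mem_filter, mem_univ, true_and, mem_rl] at hx ⊢
    exact hx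
  · refine ⟨σ y, ?_, by simp⟩
    simp only [mem_filter, mem_univ, true_and, mem_rl, Equiv.symm_apply_apply] at hy ⊢
    exact hy

theorem card_rl {w : ℕ} (σ τ : Equiv.Perm (Fin w)) (G : Gr w) : (rl σ τ G).card = G.card := by
  refine Finset.card_bij (fun e _ => (σ.symm e.1, τ.symm e.2)) ?_ ?_ ?_
  · rintro ⟨a, b⟩ h
    exact mem_rl.1 h
  · rintro ⟨a, b⟩ _ ⟨a', b'⟩ _ h
    simp only [Prod.mk.injEq, EmbeddingLike.apply_eq_iff_eq] at h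
    rw [h.1, h.2]
  · rintro ⟨a, b⟩ h
    refine ⟨(σ a, τ b), mem_rl.2 (by simpa using h), by simp⟩

theorem isCore_rl {w : ℕ} (σ τ : Equiv.Perm (Fin w)) {G : Gr w} (h : IsCore G) :
    IsCore (rl σ τ G) := by
  have key : ∀ ρ, PM G ρ → PM (rl σ τ G) ((σ.symm.trans ρ).trans τ) := by
    intro ρ hρ i
    rw [mem_rl]
    simp only [Equiv.trans_apply, Equiv.symm_apply_apply]
    exact hρ _
  refine ⟨?_, fun a b hab => ?_⟩
  · obtain ⟨ρ, hρ⟩ := h.ex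
    exact ⟨_, key ρ hρ⟩
  · obtain ⟨ρ, hρ, e⟩ := h.edge _ _ (mem_rl.1 hab)
    refine ⟨_, key ρ hρ, ?_⟩
    simp only [Equiv.trans_apply]
    rw [e, Equiv.apply_symm_apply]

theorem AC_rl {w : ℕ} (σ τ : Equiv.Perm (Fin w)) {G : Gr w} (h : AC G) : AC (rl σ τ G) := by
  intro a a' b b' h1 h2 h3
  rw [mem_rl] at *
  exact h _ _ _ _ h1 h2 h3

theorem nb_rl {w : ℕ} (σ τ : Equiv.Perm (Fin w)) (G : Gr w) : nb (rl σ τ G) = nb G := by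
  unfold nb
  simp only [rdeg_rl, cdeg_rl]
  rw [Equiv.sum_comp σ.symm (fun a => (rdeg G a : ℝ)⁻¹),
    Equiv.sum_comp τ.symm (fun b => (cdeg G b : ℝ)⁻¹)]

theorem hs_rl {w : ℕ} (σ τ : Equiv.Perm (Fin w)) (G : Gr w) : hs (rl σ τ G) = hs G := by
  unfold hs
  simp only [rdeg_rl, cdeg_rl]
  rw [Equiv.sum_comp σ.symm (fun a => Real.log (rdeg G a : ℝ)),
    Equiv.sum_comp τ.symm (fun b => Real.log (cdeg G b : ℝ))]

theorem vset_rl {w : ℕ} (σ τ : Equiv.Perm (Fin w)) (G : Gr w) :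
    {t : ℝ | ∃ G' : Gr w, IsCore G' ∧ G' ⊆ G ∧ AC G' ∧ t = nb G'} ⊆
      {t : ℝ | ∃ G' : Gr w, IsCore G' ∧ G' ⊆ rl σ τ G ∧ AC G' ∧ t = nb G'} := by
  rintro t ⟨G', h1, h2, h3, h4⟩
  exact ⟨rl σ τ G', isCore_rl σ τ h1, rl_mono σ τ h2, AC_rl σ τ h3, by rw [nb_rl]; exact h4⟩

theorem vv_rl {w : ℕ} (σ τ : Equiv.Perm (Fin w)) (G : Gr w) : vv (rl σ τ G) = vv G := by
  unfold vv
  congr 1
  refine Set.Subset.antisymm ?_ (vset_rl σ τ G)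
  have h := vset_rl σ.symm τ.symm (rl σ τ G)
  rw [rl_symm] at h
  exact h

theorem WW_rl {w : ℕ} (σ τ : Equiv.Perm (Fin w)) (G : Gr w) : WW (rl σ τ G) = WW G := by
  unfold WW
  rw [hs_rl, vv_rl]

/-- the left child inside the composition -/
theorem rl_left {w : ℕ} {G₁ G₂ : Gr w} {τ : Equiv.Perm (Fin w)} (hτ : PM G₂ τ) :
    rl 1 τ G₁ ⊆ comp G₁ G₂ := by
  rintro ⟨a, b⟩ hab
  rw [mem_rl] at hab
  refine mem_comp.2 ⟨τ.symm b, hab, ?_⟩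
  have := hτ (τ.symm b)
  rwa [Equiv.apply_symm_apply] at this

/-- the right child inside the composition -/
theorem rl_right {w : ℕ} {G₁ G₂ : Gr w} {σ : Equiv.Perm (Fin w)} (hσ : PM G₁ σ) :
    rl σ.symm 1 G₂ ⊆ comp G₁ G₂ := by
  rintro ⟨a, b⟩ hab
  rw [mem_rl] at hab
  exact mem_comp.2 ⟨σ a, hσ a, hab⟩

/-- **WG** -/
theorem WG (hWM : ST_WM) : ST_WG := by
  intro w G G₁ G₂ hG h1 h2 hc
  obtain ⟨σ, hσ⟩ := h1.ex
  obtain ⟨τ, hτ⟩ := h2.ex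
  constructor
  · rw [← WW_rl 1 τ G₁]
    exact hWM w G _ hG (isCore_rl _ _ h1) ((rl_left hτ).trans hc)
  · rw [← WW_rl σ.symm 1 G₂]
    exact hWM w G _ hG (isCore_rl _ _ h2) ((rl_right hσ).trans hc)

/-- **LW** -/
theorem LW (hW1 : ST_W1) (hWD : ST_WD) (hLX : ST_LX) : ST_LW := by
  intro w G G₁ G₂ hG h1 h2 hc hc1 hc2
  obtain ⟨σ, hσ⟩ := h1.ex
  obtain ⟨τ, hτ⟩ := h2.ex
  by_cases hAC : AC G
  · left
    rw [← WW_rl 1 τ G₁]
    have := hW1 w G (rl 1 τ G₁) hG hAC (isCore_rl _ _ h1) (hc ▸ rl_left hτ) (by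
      intro h
      rw [← card_rl 1 τ G₁, h] at hc1
      exact lt_irrefl _ hc1)
    linarith
  · rcases hLX w G G₁ G₂ h1 h2 hc hAC with ⟨x, b, hxb, h⟩ | ⟨a, x, hax, h⟩ | ⟨a, h⟩ | ⟨b, h⟩
    · left
      obtain ⟨ρ, hρ, e⟩ := h2.edge x b hxb
      rw [← WW_rl 1 ρ G₁]
      refine hWD w G _ hG (isCore_rl _ _ h1) (hc ▸ rl_left hρ) (Or.inr ⟨b, ?_⟩)
      rw [cdeg_rl, ← e, Equiv.symm_apply_apply, e]
      exact h
    · right
      obtain ⟨ρ, hρ, e⟩ := h1.edge a x hax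
      rw [← WW_rl ρ.symm 1 G₂]
      refine hWD w G _ hG (isCore_rl _ _ h2) (hc ▸ rl_right hρ) (Or.inl ⟨a, ?_⟩)
      rw [rdeg_rl, Equiv.symm_symm, e]
      exact h
    · left
      rw [← WW_rl 1 τ G₁]
      refine hWD w G _ hG (isCore_rl _ _ h1) (hc ▸ rl_left hτ) (Or.inl ⟨a, ?_⟩)
      rw [rdeg_rl]
      exact h
    · right
      rw [← WW_rl σ.symm 1 G₂]
      refine hWD w G _ hG (isCore_rl _ _ h2) (hc ▸ rl_right hσ) (Or.inr ⟨b, ?_⟩)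
      rw [cdeg_rl]
      exact h

end Pool.Agent.Helper26.D5
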